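import Pool.Agent.K1H70.KG.Stm

/-! Project KG, piece Q6: combinatorics of the profile. -/

set_option autoImplicit false

namespace Pool.Agent.K1H1.KG

open Pool.Agent.K1H70.KG

theorem univ_map_equiv {β γ : Type} [Fintype β] [Fintype γ] (h : β ≃ γ) {δ : Type} (f : γ → δ) :
    (Finset.univ : Finset β).val.map (fun b => f (h b)) = (Finset.univ : Finset γ).val.map f := by
  rw [← Multiset.map_univ_val_equiv h, Multiset.map_map]
  rfl

section

variable {α ρ : Type} {ω : α → ℕ} {d : ρ → ℕ}

theorem fin_words [Finite (T ω d)] (l : ρ) {n : ℕ} (hn : n ≤ d l) :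
    Finite {w : List α // (w.map ω).sum < n} := by
  refine Finite.of_injective (β := T ω d) (fun w => ⟨(w.1, l), w.2.trans_le hn⟩) ?_
  intro w w' h
  have h1 := congrArg (fun t : T ω d => t.1.1) h
  exact Subtype.ext h1

theorem fin_words' [Finite (T ω d)] (t : T ω d) :
    Finite {w : List α // (w.map ω).sum < d t.1.2 - (t.1.1.map ω).sum} :=
  fin_words t.1.2 (Nat.sub_le _ _)

theorem nw_mono {n n' : ℕ} (h : n ≤ n') [Finite {w : List α // (w.map ω).sum < n'}] :
    nw ω n ≤ nw ω n' := by
  unfold nw
  refine Nat.card_le_card_of_injective (fun w => ⟨w.1, w.2.trans_le h⟩) ?_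
  intro w w' hw
  have h1 := congrArg Subtype.val hw
  exact Subtype.ext h1

theorem cT_pos [Finite (T ω d)] (t : T ω d) : 0 < cT ω d t := by
  unfold cT nw
  have := fin_words' t
  have : Nonempty {w : List α // (w.map ω).sum < d t.1.2 - (t.1.1.map ω).sum} :=
    ⟨⟨[], by simpa using Nat.sub_pos_of_lt t.2⟩⟩
  exact Nat.card_pos

theorem sum_concat (w : List α) (b : α) : ((w ++ [b]).map ω).sum = (w.map ω).sum + ω b := by
  simp

/-- the bijection of the step -/
def G (j : ρ) (hj : 0 < d j) : Option (T ω (dn ω d j)) → T ω d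
  | none => ⟨([], j), by simpa using hj⟩
  | some ⟨(w, Sum.inl l), h⟩ => ⟨(w, l.1), h⟩
  | some ⟨(w, Sum.inr b), h⟩ => ⟨(w ++ [b], j), by
      have h' : (w.map ω).sum < d j - ω b := h
      show ((w ++ [b]).map ω).sum < d j
      rw [sum_concat]; omega⟩

theorem G_inj (j : ρ) (hj : 0 < d j) : Function.Injective (G (ω := ω) j hj) := by
  rintro (_ | ⟨⟨w, l | b⟩, h⟩) (_ | ⟨⟨w', l' | b'⟩, h'⟩) hG
  · rfl
  · exact absurd (congrArg (fun t : T ω d => t.1.2) hG).symm l'.2
  · have h1 := congrArg (fun t : T ω d => t.1.1) hG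
    exact absurd h1.symm (by simp [G])
  · exact absurd (congrArg (fun t : T ω d => t.1.2) hG) l.2
  · have h1 : w = w' := congrArg (fun t : T ω d => t.1.1) hG
    have h2 : l.1 = l'.1 := congrArg (fun t : T ω d => t.1.2) hG
    obtain rfl := h1
    obtain rfl := Subtype.ext h2
    rfl
  · exact absurd (congrArg (fun t : T ω d => t.1.2) hG) l.2
  · have h1 := congrArg (fun t : T ω d => t.1.1) hG
    exact absurd h1 (by simp [G])
  · exact absurd (congrArg (fun t : T ω d => t.1.2) hG).symm l'.2
  · have h1 : w ++ [b] = w' ++ [b'] := congrArg (fun t : T ω d => t.1.1) hG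
    obtain ⟨h2, h3⟩ := List.append_inj' h1 rfl
    obtain rfl := h2
    obtain rfl : b = b' := by simpa using h3
    rfl

theorem G_surj (j : ρ) (hj : 0 < d j) : Function.Surjective (G (ω := ω) j hj) := by
  rintro ⟨⟨w, l⟩, h⟩
  by_cases hl : l = j
  · subst hl
    rcases List.eq_nil_or_concat w with rfl | ⟨w, b, rfl⟩
    · exact ⟨none, rfl⟩
    · have h1 : ((w ++ [b]).map ω).sum < d l := by simpa using h
      rw [sum_concat] at h1
      refine ⟨some ⟨(w, Sum.inr b), ?_⟩, ?_⟩
      · show (w.map ω).sum < d l - ω b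
        omega
      · refine Subtype.ext ?_
        simp [G]
  · exact ⟨some ⟨(w, Sum.inl ⟨l, hl⟩), h⟩, rfl⟩

theorem cT_none (j : ρ) (hj : 0 < d j) : cT ω d (G (ω := ω) j hj none) = nw ω (d j) := by
  simp [cT, G]

theorem cT_some (j : ρ) (hj : 0 < d j) (t : T ω (dn ω d j)) :
    cT ω d (G (ω := ω) j hj (some t)) = cT ω (dn ω d j) t := by
  obtain ⟨⟨w, l | b⟩, h⟩ := t
  · rfl
  · show nw ω (d j - ((w ++ [b]).map ω).sum) = nw ω ((d j - ω b) - (w.map ω).sum)
    rw [sum_concat, add_comm, Nat.sub_sub]

end

/-- **Q6 (the profile).** -/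
theorem t_PRF : S_PRF := by
  intro α ρ m ω d e
  have : Finite (T ω d) := Finite.of_equiv _ e.symm
  refine ⟨?_, ?_⟩
  · set c0 : Fin m → ℕ := fun k => cT ω d (e.symm k) with hc0
    set f : Fin m → ℕᵒᵈ := fun k => OrderDual.toDual (c0 k) with hf
    refine ⟨c0 ∘ Tuple.sort f, ?_, ?_⟩
    · intro k l hkl
      exact Tuple.monotone_sort f hkl
    · exact univ_map_equiv (Tuple.sort f) c0
  · rintro c ⟨hc1, hc2⟩
    have hmem : ∀ k, ∃ t : T ω d, c k = cT ω d t := by
      intro k
      have h1 : c k ∈ Finset.univ.val.map c := Multiset.mem_map_of_mem _ (Finset.mem_univ k)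
      rw [hc2, Multiset.mem_map] at h1
      obtain ⟨i, -, hi⟩ := h1
      exact ⟨_, hi.symm⟩
    have hmem' : ∀ t : T ω d, ∃ k, c k = cT ω d t := by
      intro t
      have h1 : cT ω d t ∈ Finset.univ.val.map fun k => cT ω d (e.symm k) := by
        rw [Multiset.mem_map]
        exact ⟨e t, Finset.mem_univ (e t), by rw [Equiv.symm_apply_apply]⟩
      rw [← hc2, Multiset.mem_map] at h1
      obtain ⟨k, -, hk⟩ := h1
      exact ⟨k, hk⟩
    refine ⟨fun k => ?_, ?_⟩
    · obtain ⟨t, ht⟩ := hmem k
      rw [ht]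
      exact cT_pos t
    · rintro m' rfl
      have hfin : {l : ρ | 0 < d l}.Finite := by
        have h1 : Finite {l : ρ | 0 < d l} := by
          refine Finite.of_injective (β := T ω d) (fun l => ⟨([], l.1), (l.2 : 0 < d l.1)⟩) ?_
          intro l l' h
          have h2 : l.1 = l'.1 := congrArg (fun t : T ω d => t.1.2) h
          exact Subtype.ext h2
        exact h1
      have hne : {l : ρ | 0 < d l}.Nonempty := by
        refine ⟨(e.symm 0).1.2, ?_⟩
        have h1 := (e.symm 0).2
        show 0 < d (e.symm 0).1.2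
        omega
      obtain ⟨j, hj, hmax⟩ := Set.exists_max_image _ d hfin hne
      have hj0 : 0 < d j := hj
      have hmax' : ∀ l, d l ≤ d j := by
        intro l
        rcases Nat.eq_zero_or_pos (d l) with h1 | h1
        · rw [h1]; exact Nat.zero_le _
        · exact hmax l h1
      have : Finite {w : List α // (w.map ω).sum < d j} := fin_words j le_rfl
      have hc0 : c 0 = nw ω (d j) := by
        refine le_antisymm ?_ ?_
        · obtain ⟨t, ht⟩ := hmem 0
          rw [ht]
          exact nw_mono ((Nat.sub_le _ _).trans (hmax' _))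
        · obtain ⟨k, hk⟩ := hmem' (G j hj0 none)
          rw [cT_none] at hk
          rw [← hk]
          exact hc1 (Fin.zero_le k)
      -- the bijections
      set GE : Option (T ω (dn ω d j)) ≃ T ω d :=
        Equiv.ofBijective (G j hj0) ⟨G_inj j hj0, G_surj j hj0⟩ with hGE
      set e' : T ω (dn ω d j) ≃ Fin m' :=
        Equiv.removeNone (GE.trans (e.trans (finSuccEquiv m'))) with he'
      refine ⟨j, hc0, hj0, hmax', e', ?_, ?_⟩
      · intro k l hkl
        exact hc1 (Fin.succ_le_succ_iff.2 hkl)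
      · set E2 : Fin (m' + 1) ≃ T ω d :=
          (finSuccEquiv m').trans ((Equiv.optionCongr e'.symm).trans GE) with hE2
        have h1 : (Finset.univ.val.map fun k : Fin (m' + 1) => cT ω d (e.symm k)) =
            Finset.univ.val.map fun k : Fin (m' + 1) => cT ω d (E2 k) := by
          have h2 := univ_map_equiv (E2.trans e) fun k => cT ω d (e.symm k)
          simp only [Equiv.trans_apply, Equiv.symm_apply_apply] at h2
          exact h2.symm
        have h3 : E2 0 = G j hj0 none := by
          show GE (Equiv.optionCongr e'.symm (finSuccEquiv m' 0)) = _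
          rw [finSuccEquiv_zero]
          rfl
        have h4 : ∀ k : Fin m', E2 k.succ = G j hj0 (some (e'.symm k)) := by
          intro k
          show GE (Equiv.optionCongr e'.symm (finSuccEquiv m' k.succ)) = _
          rw [finSuccEquiv_succ]
          rfl
        rw [h1, Fin.univ_succ] at hc2
        simp only [Finset.cons_val, Finset.map_val, Multiset.map_cons, Multiset.map_map] at hc2
        rw [h3, cT_none, hc0, Multiset.cons_inj_right] at hc2
        refine Eq.trans ?_ (hc2.trans ?_)
        · rfl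
        · refine Multiset.map_congr rfl fun k _ => ?_
          show cT ω d (E2 k.succ) = _
          rw [h4, cT_some]

end Pool.Agent.K1H1.KG
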